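import Pool.Agent.MWLE.StmtsB
import Pool.Agent.MWGN.StmtsC

/-!
# Squad MWLE, row CLB (helper49): the insertion of `y` is an identity in class b
-/

set_option autoImplicit false

namespace Pool.Agent.MWLE.H49

open Pool.Agent.Helper14_MV Pool.Agent.Helper2_MV
open Pool.Agent.MWK (pre Gw)
open Pool.Agent.MWF (Ap gaml dbl)
open Pool.Agent.MWGN (nn Gz E0 P0 A0 Tau gh)
open Pool.Agent.MWLE

theorem cx {β : FIC} (p q : List ℕ) {l l' : List ℕ} (h : RR β l l') :
    RR β (p ++ (l ++ q)) (p ++ (l' ++ q)) :=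
  (RR.refl p).append (h.append (RR.refl q))

/-- three words -/
def s3 (X Y Z : List ℕ) (i : ℕ) : List ℕ := if i = 0 then X else if i = 1 then Y else Z

/-- squares commute -/
theorem cw {β : FIC} (h : Gz β) (W X C r : List ℕ) :
    RR β (W ++ (X ++ (X ++ (C ++ (C ++ r))))) (W ++ (C ++ (C ++ (X ++ (X ++ r))))) := by
  have h1 := cx W r (h.c.sub (s3 X C []))
  have e1 : W ++ (([0, 0, 1, 1] : List ℕ).flatMap (s3 X C []) ++ r) =
      W ++ (X ++ (X ++ (C ++ (C ++ r)))) := by
    simp [s3, List.append_assoc]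
  have e2 : W ++ (([1, 1, 0, 0] : List ℕ).flatMap (s3 X C []) ++ r) =
      W ++ (C ++ (C ++ (X ++ (X ++ r)))) := by
    simp [s3, List.append_assoc]
  rw [e1, e2] at h1
  exact h1

theorem fmc {α : Type} {f g : α → List ℕ} : ∀ {l : List α}, (∀ a ∈ l, f a = g a) →
    l.flatMap f = l.flatMap g
  | [], _ => rfl
  | a :: l, h => by
    rw [List.flatMap_cons, List.flatMap_cons, h a List.mem_cons_self,
      fmc (fun b hb => h b (List.mem_cons_of_mem _ hb))]

/-- lights and contents -/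
def LL (m : ℕ) (F : ℕ → List ℕ) (i : ℕ) : List ℕ :=
  if i = m + 1 then F 0 else if i = m + 2 then F (pin (m + 1)) else F (pin i)
def CC (F : ℕ → List ℕ) (i : ℕ) : List ℕ := if i = 0 then [] else F (con i)

theorem bsf (m : ℕ) (F : ℕ → List ℕ) (X : List ℕ) (s : ℕ → Bool)
    (hs : ∀ i ≤ m, s i = false) :
    MWGN.bs (LL m F) (CC F) X s (m + 2) = F (pin 0) ++ ((cp 1 m).flatMap F ++ (F 0 ++
      (F (con (m + 1)) ++ (F (con (m + 1)) ++ (if s (m + 1) then X ++ X else []))))) := by
  have e1 : ∀ g : ℕ → List ℕ, (List.range (m + 2)).flatMap g =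
      g 0 ++ ((List.range m).flatMap (fun i => g (i + 1)) ++ g (m + 1)) := by
    intro g
    rw [List.range_succ, List.flatMap_append, List.range_succ_eq_map, List.flatMap_cons,
      List.flatMap_map, List.append_assoc]
    simp
  unfold MWGN.bs
  rw [e1]
  have e2 : LL m F 0 ++ (CC F 0 ++ (CC F 0 ++ (if s 0 then X ++ X else []))) = F (pin 0) := by
    rw [hs 0 (Nat.zero_le _)]
    simp [LL, CC]
  have e3 : (List.range m).flatMap (fun i => LL m F (i + 1) ++ (CC F (i + 1) ++
      (CC F (i + 1) ++ (if s (i + 1) then X ++ X else [])))) = (cp 1 m).flatMap F := by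
    unfold cp
    rw [List.flatMap_assoc]
    apply fmc
    intro i hi
    have him : i < m := List.mem_range.1 hi
    rw [hs (i + 1) (by omega)]
    have h1 : LL m F (i + 1) = F (pin (1 + i)) := by
      unfold LL
      rw [if_neg (by omega), if_neg (by omega), Nat.add_comm i 1]
    have h2 : CC F (i + 1) = F (con (1 + i)) := by
      unfold CC
      rw [if_neg (by omega), Nat.add_comm i 1]
    rw [h1, h2]
    simp
  have e4 : LL m F (m + 1) ++ (CC F (m + 1) ++ (CC F (m + 1) ++
      (if s (m + 1) then X ++ X else []))) = F 0 ++ (F (con (m + 1)) ++ (F (con (m + 1)) ++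
        (if s (m + 1) then X ++ X else []))) := by
    have h1 : LL m F (m + 1) = F 0 := by
      unfold LL
      rw [if_pos rfl]
    have h2 : CC F (m + 1) = F (con (m + 1)) := by
      unfold CC
      rw [if_neg (by omega)]
    rw [h1, h2]
  rw [e2, e3, e4]

/-- **CLB** -/
theorem clb (htfw : TfwStmt) (_ : DdcStmt) (hvvd : VvdStmt) (hfsp : MWGN.FspStmt) : ClbStmt := by
  intro β hG hF σ τ m hσ f p q hf1
  obtain ⟨F, hFd⟩ : ∃ F : ℕ → List ℕ, F = fun a => (f a).flatMap (psi 1) := ⟨_, rfl⟩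
  have hFa : ∀ a, (f a).flatMap (psi 1) = F a := fun a => by rw [hFd]
  have hFm : ∀ l : List ℕ, (l.flatMap f).flatMap (psi 1) = l.flatMap F := by
    intro l
    rw [List.flatMap_assoc, hFd]
  obtain ⟨P', hP'⟩ : ∃ P' : List ℕ, P' = con 0 :: con 0 :: pin 0 ::
    (cp 1 m ++ [0, con (m + 1), con (m + 1)]) := ⟨_, rfl⟩
  obtain ⟨R', hR'⟩ : ∃ R' : List ℕ, R' = cp (m + 2) m ++
    ([pin (2 * m + 2)] ++ ([0] ++ tl σ)) := ⟨_, rfl⟩
  obtain ⟨τ', S, R, hτ', hT⟩ := htfw σ τ m hσ F
  have w1 : wd σ m false false = 1 :: (P' ++ pin (m + 1) :: 1 :: R') := by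
    rw [hP', hR']
    simp [wd, wb, N0, Nx]
  have w2 : wd σ m false true = 1 :: (P' ++ 1 :: pin (m + 1) :: 1 :: R') := by
    rw [hP', hR']
    simp [wd, wb, N0, Nx]
  obtain ⟨rest, hrest⟩ : ∃ rest : List ℕ, rest = f (pin (m + 1)) ++
    (f 1 ++ (R'.flatMap f ++ q)) := ⟨_, rfl⟩
  obtain ⟨B, hB⟩ : ∃ B : List ℕ, B = (cp (m + 2) m ++ [pin (2 * m + 2)]).flatMap F := ⟨_, rfl⟩
  have e1 : p ++ ((wd σ m false false).flatMap f ++ q) =
      p ++ (f 1 ++ (P'.flatMap f ++ rest)) := by
    rw [w1, hrest]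
    simp only [List.flatMap_append, List.flatMap_cons, List.append_assoc]
  have e2 : p ++ ((wd σ m false true).flatMap f ++ q) =
      p ++ (f 1 ++ (P'.flatMap f ++ (f 1 ++ rest))) := by
    rw [w2, hrest]
    simp only [List.flatMap_append, List.flatMap_cons, List.append_assoc]
  rw [e1, e2]
  -- the first doubling
  have a1 := hvvd β hG 1 p (f 1) (P'.flatMap f ++ rest) hf1
  have a2 := hvvd β hG 1 p (f 1) (P'.flatMap f ++ (f 1 ++ rest)) hf1
  -- the second doubling
  have a3 := hvvd β hG 1 (p ++ (f 1 ++ (f 1 ++ P'.flatMap f))) (f 1) rest (by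
    intro c hc
    rcases hf1 c hc with h | h | h
    · exact Or.inl h
    · exact Or.inr (Or.inl h)
    · exact Or.inr (Or.inr (List.mem_append_left _ h)))
  simp only [List.append_assoc] at a3
  -- the hull
  have main : ∀ s : ℕ → Bool, (∀ i ≤ m, s i = false) →
      RR β ((p ++ (f 1 ++ (f 1 ++ (P'.flatMap f ++ ((if s (m + 1) then f 1 ++ f 1 else []) ++
        rest))))).flatMap (psi 1)) (p.flatMap (psi 1) ++ (F (con 0) ++ (F (con 0) ++
          (MWGN.ws (F 1) B S (LL m F) (CC F) s τ' (m + 2) ++ (R ++ q.flatMap (psi 1)))))) := by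
    intro s hs
    obtain ⟨Y, hY⟩ : ∃ Y : List ℕ, Y = F (pin 0) ++ ((cp 1 m).flatMap F ++ (F 0 ++
      (F (con (m + 1)) ++ (F (con (m + 1)) ++ ((if s (m + 1) then F 1 ++ F 1 else []) ++
        (F (pin (m + 1)) ++ (F 1 ++ (B ++ ((F 0 ++ (tl σ).flatMap F) ++
          q.flatMap (psi 1)))))))))) := ⟨_, rfl⟩
    have h1 := cw hG (p.flatMap (psi 1)) (F 1) (F (con 0)) Y
    have h2 : (p ++ (f 1 ++ (f 1 ++ (P'.flatMap f ++ ((if s (m + 1) then f 1 ++ f 1 else []) ++
        rest))))).flatMap (psi 1) = p.flatMap (psi 1) ++ (F 1 ++ (F 1 ++ (F (con 0) ++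
          (F (con 0) ++ Y)))) := by
      have h3 : (if s (m + 1) then f 1 ++ f 1 else []).flatMap (psi 1) =
          (if s (m + 1) then F 1 ++ F 1 else []) := by
        by_cases h : s (m + 1) = true
        · rw [if_pos h, if_pos h, List.flatMap_append, hFa]
        · rw [if_neg h, if_neg h, List.flatMap_nil]
      rw [hY, hrest]
      simp only [List.flatMap_append, hFa, hFm, h3]
      rw [hP', hR', hB]
      simp only [List.flatMap_append, List.flatMap_cons, List.flatMap_nil, List.append_assoc,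
        List.append_nil]
    have h4 : MWGN.ws (F 1) B S (LL m F) (CC F) s τ' (m + 2) ++ (R ++ q.flatMap (psi 1)) =
        F 1 ++ (F 1 ++ Y) := by
      have h5 : (τ'.flatMap (fun i => S i ++ LL m F i)) ++ R = F 0 ++ (tl σ).flatMap F := by
        rw [hT]
        rfl
      have h6 : LL m F (m + 2) = F (pin (m + 1)) := by
        unfold LL
        rw [if_neg (by omega), if_pos rfl]
      unfold MWGN.ws
      rw [bsf m F (F 1) s hs, h6, hY, ← h5]
      simp only [List.append_assoc]
    rw [h2, h4]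
    exact h1
  have m0 := main (fun _ => false) (fun _ _ => rfl)
  have m1 := main (fun i => decide (i = m + 1)) (fun i hi => by
    have : ¬ i = m + 1 := by omega
    exact decide_eq_false this)
  have e4 : (if (fun _ : ℕ => false) (m + 1) = true then f 1 ++ f 1 else []) = [] := rfl
  have e5 : (if (fun i => decide (i = m + 1)) (m + 1) = true then f 1 ++ f 1 else []) =
      f 1 ++ f 1 := by
    rw [if_pos (by simp)]
  rw [e4, List.nil_append] at m0
  rw [e5, List.append_assoc] at m1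
  have fb := hF (m + 2) τ' hτ' (F 1) B S (LL m F) (CC F)
  have fs := hfsp β hG (m + 2) (fun n _ τ hτ => hF n τ hτ) τ' hτ'
    (fun i => decide (i = m + 1)) ⟨m + 1, by omega, by simp⟩ (F 1) B S (LL m F) (CC F)
  have mid := cx (p.flatMap (psi 1) ++ (F (con 0) ++ F (con 0))) (R ++ q.flatMap (psi 1))
    (β.trans fb fs.symm)
  simp only [List.append_assoc] at mid
  exact β.trans a1 (β.trans m0 (β.trans mid (β.trans m1.symm (β.trans a3.symm a2.symm))))

end Pool.Agent.MWLE.H49
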